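import Pool.Agent.N20.EN.Stm
import Pool.Agent.Y824.NV.LQ

/-!
# Project EN, leaf LQO: orbits of invariant characters and quotients by normal `p`-subgroups
-/

set_option autoImplicit false

open scoped Classical

noncomputable section

namespace Pool.Agent.N476.EN

open Pool.Agent.Y63.NV
open Pool.Agent.N20.EN
open Pool.Agent.Y824.NV (inflate deflate push_inZ push_sum)

section

variable {F : Type} [Field F] {Γ : Type} [Group Γ] [Finite Γ]

omit [Field F] [Finite Γ] in
theorem inv_iffM (G M P : Subgroup Γ) [hG : G.Normal] [P.Normal]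
    (φ : G.map (QuotientGroup.mk' P) → F) :
    IsInvUnder M (fun g : G => φ ((QuotientGroup.mk' P).subgroupMap G g)) ↔
      IsInvUnder (M.map (QuotientGroup.mk' P)) φ := by
  constructor
  · rintro H _ ⟨h, hM, rfl⟩ x' y' hxy
    obtain ⟨x, rfl⟩ := (QuotientGroup.mk' P).subgroupMap_surjective G x'
    have h1 := H h hM x ⟨h * x * h⁻¹, hG.conj_mem x x.2 h⟩ rfl
    refine Eq.trans (congrArg φ ?_) h1
    apply Subtype.ext
    rw [hxy]
    rfl
  · intro H h hM x y hxy
    apply H (QuotientGroup.mk' P h) ⟨h, hM, rfl⟩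
    change QuotientGroup.mk' P (y : Γ) = _
    rw [hxy]
    rfl

omit [Field F] [Finite Γ] in
theorem cjf_iff (G P : Subgroup Γ) [hG : G.Normal] [P.Normal]
    (φ φ' : G.map (QuotientGroup.mk' P) → F) (h : Γ) :
    CjF h (fun g : G => φ ((QuotientGroup.mk' P).subgroupMap G g))
      (fun g : G => φ' ((QuotientGroup.mk' P).subgroupMap G g)) ↔
      CjF (QuotientGroup.mk' P h) φ φ' := by
  constructor
  · intro H x' y' hxy
    obtain ⟨x, rfl⟩ := (QuotientGroup.mk' P).subgroupMap_surjective G x'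
    have h1 := H x ⟨h * x * h⁻¹, hG.conj_mem x x.2 h⟩ rfl
    refine Eq.trans (congrArg φ' ?_) h1
    apply Subtype.ext
    rw [hxy]
    rfl
  · intro H x y hxy
    apply H
    change QuotientGroup.mk' P (y : Γ) = _
    rw [hxy]
    rfl

theorem orb_eq {p : ℕ} [hp : Fact p.Prime] [CharP F p] (G M P : Subgroup Γ) [hG : G.Normal]
    [hP : P.Normal] (hPp : IsPGroup p P) (z : Γ → F) (hz : InZ G z) (c : F) :
    OrbL G M ⊤ z c =
      OrbL (G.map (QuotientGroup.mk' P)) (M.map (QuotientGroup.mk' P)) ⊤ (push P z) c := by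
  set π := (QuotientGroup.mk' P).subgroupMap G with hπ
  have hsurj : Function.Surjective π := (QuotientGroup.mk' P).subgroupMap_surjective G
  have hker : IsPGroup p π.ker := by
    intro k
    have hkM : ((k : G) : Γ) ∈ P := by
      have h1 : π (k : G) = 1 := k.2
      have h2 := congrArg Subtype.val h1
      exact (QuotientGroup.eq_one_iff _).1 h2
    obtain ⟨n, hn⟩ := hPp ⟨((k : G) : Γ), hkM⟩
    refine ⟨n, ?_⟩
    apply Subtype.ext
    apply Subtype.ext
    have h3 := congrArg Subtype.val hn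
    simpa using h3
  have heig : ∀ φ : G.map (QuotientGroup.mk' P) → F,
      (∀ x : G.map (QuotientGroup.mk' P), ∑ᶠ g : G.map (QuotientGroup.mk' P),
        push P z g * φ (g * x) = c * φ x) ↔
      ∀ x : G, ∑ᶠ g : G, z g * φ (π (g * x)) = c * φ (π x) := by
    intro φ
    have h1 : ∀ x : G, ∑ᶠ g : G, z g * φ (π (g * x)) =
        ∑ᶠ g : G.map (QuotientGroup.mk' P), push P z g * φ (g * π x) := by
      intro x
      rw [push_sum G P z hz (fun g => φ (g * π x))]
      apply finsum_congr
      intro g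
      rw [map_mul]
    constructor
    · intro H x
      rw [h1]
      exact H (π x)
    · intro H x'
      obtain ⟨x, rfl⟩ := hsurj x'
      rw [← h1]
      exact H x
  let f : TrM (G.map (QuotientGroup.mk' P)) (M.map (QuotientGroup.mk' P)) (push P z) c →
      TrM G M z c := fun φ => ⟨fun g => φ.1 (π g), inflate π hsurj φ.1 φ.2.1,
    (inv_iffM G M P φ.1).2 φ.2.2.1, (heig φ.1).1 φ.2.2.2⟩
  have hf : Function.Bijective f := by
    constructor
    · intro φ φ' h
      apply Subtype.ext
      funext x'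
      obtain ⟨x, rfl⟩ := hsurj x'
      exact congrFun (congrArg Subtype.val h) x
    · rintro ⟨φ, hφ1, hφ2, hφ3⟩
      obtain ⟨φ', h1, rfl⟩ := deflate π hsurj hker φ hφ1
      exact ⟨⟨φ', h1, (inv_iffM G M P φ').1 hφ2, (heig φ').2 hφ3⟩, rfl⟩
  unfold OrbL
  symm
  apply Nat.card_congr
  refine Quot.congr (Equiv.ofBijective f hf) fun φ φ' => ?_
  constructor
  · rintro ⟨h', -, H⟩
    obtain ⟨h, rfl⟩ := QuotientGroup.mk'_surjective P h'
    exact ⟨h, Subgroup.mem_top _, (cjf_iff G P φ.1 φ'.1 h).2 H⟩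
  · rintro ⟨h, -, H⟩
    exact ⟨QuotientGroup.mk' P h, Subgroup.mem_top _, (cjf_iff G P φ.1 φ'.1 h).1 H⟩

end

/-- orbits of invariant characters and quotients by normal `p`-subgroups -/
theorem LQO : S_LQO := by
  intro p hp F _ _ _ Γ _ _ G M P hG hM hP z hPp hPM hGM hz c
  refine ⟨push_inZ G P z hz, ?_⟩
  unfold LsK
  rw [inf_top_eq, inf_top_eq, inf_top_eq, inf_top_eq, if_pos (sup_eq_right.2 hGM),
    if_pos (sup_eq_right.2 (Subgroup.map_mono hGM)), orb_eq G M P hPp z hz c,
    Subgroup.card_top, Subgroup.card_top, Subgroup.card_eq_card_quotient_mul_card_subgroup P]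
  push_cast
  ring

end Pool.Agent.N476.EN
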